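import Mathlib

/-!
# The recurrence `x_{n+1} = 1 / (B_n x_n + x_{n-l})` with `k`-periodic coefficients

The solution `x_{-l}, x_{-l+1}, …` is encoded by `x : ℕ → ℝ`, where `x j` is `x_{j-l}`.
-/

namespace Pool.Agent.LibMP975ca8

open Filter Topology

/-- `x` (with `x j` standing for `x_{j-l}`) is a positive solution of
`x_{n+1} = 1 / (B_n x_n + x_{n-l})`, `n = 0, 1, 2, …`. -/
def IsPosSol (l : ℕ) (B : ℕ → ℝ) (x : ℕ → ℝ) : Prop :=
  (∀ j ≤ l, 0 < x j) ∧ ∀ n, x (n + l + 1) = 1 / (B n * x (n + l) + x n)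

variable {l k : ℕ} {B : ℕ → ℝ}

lemma IsPosSol.pos {x : ℕ → ℝ} (hB : ∀ n, 0 ≤ B n) (hx : IsPosSol l B x) : ∀ j, 0 < x j := by
  intro j
  induction j using Nat.strong_induction_on with
  | _ j ih =>
    rcases Nat.lt_or_ge l j with h | h
    · obtain ⟨n, rfl⟩ : ∃ n, j = n + l + 1 := ⟨j - l - 1, by omega⟩
      rw [hx.2 n]
      have h1 := ih (n + l) (by omega)
      have h2 := ih n (by omega)
      have := mul_nonneg (hB n) h1.le
      positivity
    · exact hx.1 j h

/-- Comparison of two positive solutions. -/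
lemma IsPosSol.ratio {x y : ℕ → ℝ} (hB : ∀ n, 0 ≤ B n) (hx : IsPosSol l B x)
    (hy : IsPosSol l B y) {M : ℝ} (h0 : ∀ j ≤ l, x j ≤ M * y j ∧ y j ≤ M * x j) :
    ∀ j, x j ≤ M * y j ∧ y j ≤ M * x j := by
  intro j
  induction j using Nat.strong_induction_on with
  | _ j ih =>
    rcases Nat.lt_or_ge l j with h | h
    · obtain ⟨n, rfl⟩ : ∃ n, j = n + l + 1 := ⟨j - l - 1, by omega⟩
      have h1 := ih (n + l) (by omega)
      have h2 := ih n (by omega)
      rw [hx.2 n, hy.2 n]
      have px := hx.pos hB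
      have py := hy.pos hB
      have dx : 0 < B n * x (n + l) + x n := by
        have := mul_nonneg (hB n) (px (n + l)).le
        have := px n
        linarith
      have dy : 0 < B n * y (n + l) + y n := by
        have := mul_nonneg (hB n) (py (n + l)).le
        have := py n
        linarith
      constructor
      · rw [mul_one_div, div_le_div_iff₀ dx dy]
        have := mul_le_mul_of_nonneg_left h1.2 (hB n)
        nlinarith [h2.2]
      · rw [mul_one_div, div_le_div_iff₀ dy dx]
        have := mul_le_mul_of_nonneg_left h1.1 (hB n)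
        nlinarith [h2.1]
    · exact h0 j h

/-- A bound on finitely many ratios. -/
lemma exists_ratio (l : ℕ) (x y : ℕ → ℝ) (hx : ∀ j, 0 < x j) (hy : ∀ j, 0 < y j) :
    ∃ M : ℝ, 0 < M ∧ ∀ j ≤ l, x j ≤ M * y j ∧ y j ≤ M * x j := by
  refine ⟨∑ j ∈ Finset.range (l + 1), (x j / y j + y j / x j), ?_, ?_⟩
  · apply Finset.sum_pos
    · intro j _
      have := hx j; have := hy j
      positivity
    · exact ⟨0, by simp⟩
  · intro j hj
    have h1 : x j / y j + y j / x j ≤
        ∑ j ∈ Finset.range (l + 1), (x j / y j + y j / x j) := by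
      apply Finset.single_le_sum (f := fun j => x j / y j + y j / x j)
      · intro i _
        have := hx i; have := hy i
        positivity
      · simp; omega
    have hxj := hx j
    have hyj := hy j
    constructor
    · have : x j / y j ≤ ∑ j ∈ Finset.range (l + 1), (x j / y j + y j / x j) := by
        have : 0 < y j / x j := by positivity
        linarith
      rwa [div_le_iff₀ hyj] at this
    · have : y j / x j ≤ ∑ j ∈ Finset.range (l + 1), (x j / y j + y j / x j) := by
        have : 0 < x j / y j := by positivity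
        linarith
      rwa [div_le_iff₀ hxj] at this

/-- If one positive solution is bounded, then all are. -/
lemma bdd_of_bdd {x y : ℕ → ℝ} (hB : ∀ n, 0 ≤ B n) (hx : IsPosSol l B x)
    (hy : IsPosSol l B y) (h : BddAbove (Set.range y)) : BddAbove (Set.range x) := by
  obtain ⟨M, hM, h0⟩ := exists_ratio l x y (hx.pos hB) (hy.pos hB)
  obtain ⟨C, hC⟩ := h
  refine ⟨M * C, ?_⟩
  rintro _ ⟨j, rfl⟩
  have h1 := (hx.ratio hB hy h0 j).1
  have h2 : y j ≤ C := hC ⟨j, rfl⟩
  nlinarith

/-- A periodic sequence is bounded. -/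
lemma bdd_of_periodic {y : ℕ → ℝ} (hk : 0 < k) (h : ∀ j, y (j + k) = y j) :
    BddAbove (Set.range y) := by
  have hmod : ∀ j, y j = y (j % k) := by
    intro j
    have : ∀ q r, y (r + k * q) = y r := by
      intro q
      induction q with
      | zero => intro r; simp
      | succ q ih =>
        intro r
        rw [show r + k * (q + 1) = (r + k * q) + k by ring, h, ih]
    conv_lhs => rw [← Nat.mod_add_div j k]
    exact this _ _
  refine ⟨∑ j ∈ Finset.range k, |y j|, ?_⟩
  rintro _ ⟨j, rfl⟩
  rw [hmod j]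
  refine (le_abs_self _).trans ?_
  exact Finset.single_le_sum (f := fun j => |y j|) (fun i _ => abs_nonneg _)
    (by simp; exact Nat.mod_lt _ hk)

/-- Existence of solutions with prescribed initial data. -/
noncomputable def mkSol (l : ℕ) (B : ℕ → ℝ) (v : ℕ → ℝ) : ℕ → ℝ
  | n => if h : n ≤ l then v n else
      1 / (B (n - l - 1) * mkSol l B v (n - 1) + mkSol l B v (n - l - 1))
termination_by n => n
decreasing_by all_goals omega

lemma mkSol_spec (l : ℕ) (B : ℕ → ℝ) (v : ℕ → ℝ) (hv : ∀ j, 0 < v j) :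
    IsPosSol l B (mkSol l B v) ∧ ∀ j ≤ l, mkSol l B v j = v j := by
  have h1 : ∀ j ≤ l, mkSol l B v j = v j := by
    intro j hj
    rw [mkSol]; simp [hj]
  refine ⟨⟨fun j hj => by rw [h1 j hj]; exact hv j, ?_⟩, h1⟩
  intro n
  rw [mkSol]
  have : ¬ (n + l + 1 ≤ l) := by omega
  simp only [this, dite_false]
  have e1 : n + l + 1 - l - 1 = n := by omega
  have e2 : n + l + 1 - 1 = n + l := by omega
  rw [e1, e2]

/-! ### Nonexpansiveness -/

lemma log_le_of (b u v u' v' D : ℝ) (hb : 0 ≤ b) (h1 : u ≤ u' + D) (h2 : v ≤ v' + D) :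
    Real.log (b * Real.exp u + Real.exp v) ≤ Real.log (b * Real.exp u' + Real.exp v') + D := by
  have p1 : 0 < b * Real.exp u + Real.exp v := by
    have := Real.exp_pos u; have := Real.exp_pos v; positivity
  have p2 : 0 < b * Real.exp u' + Real.exp v' := by
    have := Real.exp_pos u'; have := Real.exp_pos v'; positivity
  have : b * Real.exp u + Real.exp v ≤ (b * Real.exp u' + Real.exp v') * Real.exp D := by
    have e1 : Real.exp u ≤ Real.exp u' * Real.exp D := by
      rw [← Real.exp_add]; exact Real.exp_le_exp.mpr h1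
    have e2 : Real.exp v ≤ Real.exp v' * Real.exp D := by
      rw [← Real.exp_add]; exact Real.exp_le_exp.mpr h2
    nlinarith [mul_le_mul_of_nonneg_left e1 hb]
  calc Real.log (b * Real.exp u + Real.exp v)
      ≤ Real.log ((b * Real.exp u' + Real.exp v') * Real.exp D) := Real.log_le_log p1 this
    _ = _ := by rw [Real.log_mul p2.ne' (Real.exp_pos D).ne', Real.log_exp]

/-- The `k`-cyclic map whose fixed points are the logarithms of positive `k`-periodic
solutions. -/
noncomputable def Psi (l : ℕ) (b : ZMod k → ℝ) (z : ZMod k → ℝ) : ZMod k → ℝ := fun i =>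
  - Real.log (b (i - (l + 1 : ℕ)) * Real.exp (z (i - 1)) + Real.exp (z (i - (l + 1 : ℕ))))

variable [NeZero k]

lemma Psi_dist (b : ZMod k → ℝ) (hb : ∀ i, 0 ≤ b i) (z w : ZMod k → ℝ) :
    dist (Psi l b z) (Psi l b w) ≤ dist z w := by
  rw [dist_pi_le_iff dist_nonneg]
  intro i
  have h1 := dist_le_pi_dist z w (i - 1)
  have h2 := dist_le_pi_dist z w (i - (l + 1 : ℕ))
  rw [Real.dist_eq, abs_le] at h1 h2
  rw [Real.dist_eq, abs_le]
  have e1 := log_le_of (b (i - (l + 1 : ℕ))) (z (i - 1)) (z (i - (l + 1 : ℕ))) (w (i - 1))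
    (w (i - (l + 1 : ℕ))) (dist z w) (hb _) (by linarith) (by linarith)
  have e2 := log_le_of (b (i - (l + 1 : ℕ))) (w (i - 1)) (w (i - (l + 1 : ℕ))) (z (i - 1))
    (z (i - (l + 1 : ℕ))) (dist z w) (hb _) (by linarith) (by linarith)
  simp only [Psi]
  constructor <;> linarith

lemma Psi_lip (b : ZMod k → ℝ) (hb : ∀ i, 0 ≤ b i) :
    LipschitzWith 1 (Psi (l := l) b) := by
  apply LipschitzWith.of_dist_le_mul
  intro z w
  simpa using Psi_dist b hb z w

/-- For every `a > 1` the damped map has a fixed point. -/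
lemma exists_damped (b : ZMod k → ℝ) (hb : ∀ i, 0 ≤ b i) (c : ℝ) (hc0 : 0 ≤ c) (hc1 : c < 1) :
    ∃ z : ZMod k → ℝ, z = c • Psi l b z := by
  have hlip : LipschitzWith ⟨c, hc0⟩ (fun z => c • Psi (l := l) b z) := by
    apply LipschitzWith.of_dist_le_mul
    intro z w
    rw [dist_smul₀]
    have := Psi_dist (l := l) b hb z w
    simp only [Real.norm_eq_abs, abs_of_nonneg hc0]
    exact mul_le_mul_of_nonneg_left this hc0
  have hcon : ContractingWith ⟨c, hc0⟩ (fun z => c • Psi (l := l) b z) :=
    ⟨by exact_mod_cast hc1, hlip⟩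
  exact ⟨ContractingWith.fixedPoint _ hcon, (ContractingWith.fixedPoint_isFixedPt hcon).symm⟩

/-- Uniformly bounded damped fixed points give a fixed point. -/
lemma exists_fixed (b : ZMod k → ℝ) (hb : ∀ i, 0 ≤ b i) (R δ : ℝ) (hδ : 0 < δ)
    (h : ∀ c : ℝ, 0 ≤ c → c < 1 → 1 - δ < c → ∀ z : ZMod k → ℝ, z = c • Psi l b z → ‖z‖ ≤ R) :
    ∃ z : ZMod k → ℝ, Psi l b z = z := by
  -- damped parameters
  let c : ℕ → ℝ := fun m => 1 - min (1 / 2) (δ / 2) / (m + 1)
  have hmin : 0 < min (1 / 2 : ℝ) (δ / 2) := by positivity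
  have hfrac : ∀ m : ℕ, 0 < min (1 / 2 : ℝ) (δ / 2) / (m + 1) ∧
      min (1 / 2 : ℝ) (δ / 2) / (m + 1) ≤ min (1 / 2) (δ / 2) := by
    intro m
    refine ⟨by positivity, ?_⟩
    apply div_le_self hmin.le
    have : (0 : ℝ) ≤ m := by positivity
    linarith
  have hc0 : ∀ m, 0 ≤ c m := by
    intro m
    have := (hfrac m).2
    have h2 := min_le_left (1 / 2 : ℝ) (δ / 2)
    simp only [c]; linarith
  have hc1 : ∀ m, c m < 1 := by
    intro m
    have := (hfrac m).1
    simp only [c]; linarith
  have hcδ : ∀ m, 1 - δ < c m := by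
    intro m
    have := (hfrac m).2
    have h2 := min_le_right (1 / 2 : ℝ) (δ / 2)
    simp only [c]; linarith
  have hclim : Tendsto c atTop (𝓝 1) := by
    have h1 : Tendsto (fun m : ℕ => min (1 / 2 : ℝ) (δ / 2) / ((m : ℝ) + 1)) atTop (𝓝 0) := by
      have := tendsto_one_div_add_atTop_nhds_zero_nat (𝕜 := ℝ)
      have h3 := this.const_mul (min (1 / 2 : ℝ) (δ / 2))
      simp only [mul_one_div, mul_zero] at h3
      exact h3
    have h2 := h1.const_sub 1
    simpa [c] using h2
  choose z hz using fun m => exists_damped (l := l) b hb (c m) (hc0 m) (hc1 m)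
  have hzR : ∀ m, z m ∈ Metric.closedBall (0 : ZMod k → ℝ) R := by
    intro m
    rw [mem_closedBall_zero_iff]
    exact h (c m) (hc0 m) (hc1 m) (hcδ m) (z m) (hz m)
  obtain ⟨z0, -, φ, hφ, hlim⟩ := (isCompact_closedBall (0 : ZMod k → ℝ) R).tendsto_subseq hzR
  refine ⟨z0, ?_⟩
  have h1 : Tendsto (fun m => c (φ m) • Psi (l := l) b (z (φ m))) atTop
      (𝓝 ((1 : ℝ) • Psi (l := l) b z0)) := by
    apply Tendsto.smul (hclim.comp hφ.tendsto_atTop)
    exact ((Psi_lip (l := l) b hb).continuous.tendsto z0).comp hlim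
  have h2 : (fun m => c (φ m) • Psi (l := l) b (z (φ m))) = fun m => z (φ m) := by
    funext m; exact (hz (φ m)).symm
  rw [h2, one_smul] at h1
  exact tendsto_nhds_unique h1 hlim

/-- Cyclic form of a periodic coefficient sequence. -/
def cyc (k : ℕ) (B : ℕ → ℝ) : ZMod k → ℝ := fun i => B i.val

lemma periodic_val (hper : ∀ n, B (n + k) = B n) (n : ℕ) : cyc k B (n : ZMod k) = B n := by
  have hmod : ∀ j, B j = B (j % k) := by
    intro j
    have : ∀ q r, B (r + k * q) = B r := by
      intro q
      induction q with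
      | zero => intro r; simp
      | succ q ih =>
        intro r
        rw [show r + k * (q + 1) = (r + k * q) + k by ring, hper, ih]
    conv_lhs => rw [← Nat.mod_add_div j k]
    exact this _ _
  simp only [cyc, ZMod.val_natCast]
  exact (hmod n).symm

/-- A fixed point of `Psi` is a periodic solution. -/
lemma sol_of_fixed (hB : ∀ n, 0 ≤ B n) (hper : ∀ n, B (n + k) = B n) (z : ZMod k → ℝ)
    (hz : Psi l (cyc k B) z = z) :
    ∃ y, IsPosSol l B y ∧ ∀ j, y (j + k) = y j := by
  refine ⟨fun j => Real.exp (z (j : ZMod k)), ⟨fun j _ => Real.exp_pos _, ?_⟩, ?_⟩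
  · intro n
    have h := congrFun hz ((n + l + 1 : ℕ) : ZMod k)
    simp only [Psi] at h
    have e1 : (((n + l + 1 : ℕ) : ZMod k) - (l + 1 : ℕ)) = (n : ZMod k) := by
      push_cast; ring
    have e2 : (((n + l + 1 : ℕ) : ZMod k) - 1) = ((n + l : ℕ) : ZMod k) := by
      push_cast; ring
    rw [e1, e2, periodic_val hper] at h
    show Real.exp (z ((n + l + 1 : ℕ) : ZMod k)) = _
    rw [← h, Real.exp_neg, Real.exp_log, one_div]
    have := Real.exp_pos (z (n : ZMod k))
    have := mul_nonneg (hB n) (Real.exp_pos (z ((n + l : ℕ) : ZMod k))).le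
    linarith
  · intro j
    simp

/-- A periodic solution is a fixed point of `Psi`. -/
lemma fixed_of_sol (hB : ∀ n, 0 ≤ B n) (hper : ∀ n, B (n + k) = B n) {y : ℕ → ℝ}
    (hy : IsPosSol l B y) (hyp : ∀ j, y (j + k) = y j) :
    Psi l (cyc k B) (fun i => Real.log (y i.val)) = fun i => Real.log (y i.val) := by
  have hk : 0 < k := Nat.pos_of_ne_zero (NeZero.ne k)
  have hval : ∀ n : ℕ, y ((n : ZMod k).val) = y n := by
    intro n
    have := periodic_val (B := y) (k := k) hyp n
    exact this
  funext i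
  obtain ⟨n, hn⟩ : ∃ n : ℕ, i = ((n + l + 1 : ℕ) : ZMod k) := by
    refine ⟨i.val + (k - 1) * (l + 1), ?_⟩
    have hk1 : (((k - 1 : ℕ)) : ZMod k) = -1 := by
      rw [Nat.cast_sub (by omega)]; simp
    push_cast [hk1]
    simp only [ZMod.natCast_val, ZMod.cast_id', id_eq]
    ring
  subst hn
  simp only [Psi]
  have e1 : (((n + l + 1 : ℕ) : ZMod k) - (l + 1 : ℕ)) = (n : ZMod k) := by
    push_cast; ring
  have e2 : (((n + l + 1 : ℕ) : ZMod k) - 1) = ((n + l : ℕ) : ZMod k) := by
    push_cast; ring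
  rw [e1, e2, periodic_val hper, hval, hval, hval, Real.exp_log (hy.pos hB _),
    Real.exp_log (hy.pos hB _), hy.2 n, one_div, Real.log_inv]

/-- A bounded positive solution forces a positive `k`-periodic solution. -/
theorem exists_periodic_of_bdd (hB : ∀ n, 0 ≤ B n) (hper : ∀ n, B (n + k) = B n) {x : ℕ → ℝ}
    (hx : IsPosSol l B x) (hbd : BddAbove (Set.range x)) :
    ∃ y, IsPosSol l B y ∧ ∀ j, y (j + k) = y j := by
  have hk : 0 < k := Nat.pos_of_ne_zero (NeZero.ne k)
  have px := hx.pos hB
  -- upper bound for `x` and `B`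
  obtain ⟨C, hC⟩ := hbd
  have hC' : ∀ j, x j ≤ C := fun j => hC ⟨j, rfl⟩
  obtain ⟨β, hβ⟩ := bdd_of_periodic hk hper
  have hβ' : ∀ j, B j ≤ β := fun j => hβ ⟨j, rfl⟩
  -- two-sided bound for the logarithms
  obtain ⟨R, hR⟩ : ∃ R : ℝ, ∀ j, |Real.log (x j)| ≤ R := by
    have hCpos : 0 < C := (px 0).trans_le (hC' 0)
    have hβ0 : 0 ≤ β := (hB 0).trans (hβ' 0)
    have low : ∀ n, 1 / ((β + 1) * C) ≤ x (n + l + 1) := by
      intro n
      rw [hx.2 n]
      have d : 0 < B n * x (n + l) + x n := by
        have := mul_nonneg (hB n) (px (n + l)).le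
        have := px n
        linarith
      apply one_div_le_one_div_of_le d
      have h1 : B n * x (n + l) ≤ β * C :=
        mul_le_mul (hβ' n) (hC' _) (px _).le hβ0
      have h2 := hC' n
      nlinarith
    refine ⟨|Real.log C| + |Real.log (1 / ((β + 1) * C))| +
      ∑ j ∈ Finset.range (l + 1), |Real.log (x j)|, ?_⟩
    intro j
    have hs : 0 ≤ ∑ j ∈ Finset.range (l + 1), |Real.log (x j)| :=
      Finset.sum_nonneg fun _ _ => abs_nonneg _
    rcases Nat.lt_or_ge l j with h | h
    · obtain ⟨n, rfl⟩ : ∃ n, j = n + l + 1 := ⟨j - l - 1, by omega⟩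
      have h1 : Real.log (x (n + l + 1)) ≤ Real.log C := Real.log_le_log (px _) (hC' _)
      have h2 : Real.log (1 / ((β + 1) * C)) ≤ Real.log (x (n + l + 1)) :=
        Real.log_le_log (by positivity) (low n)
      rw [abs_le]
      constructor
      · have := neg_abs_le (Real.log (1 / ((β + 1) * C)))
        have := abs_nonneg (Real.log C)
        linarith
      · have := le_abs_self (Real.log C)
        have := abs_nonneg (Real.log (1 / ((β + 1) * C)))
        linarith
    · have h3 : |Real.log (x j)| ≤ ∑ j ∈ Finset.range (l + 1), |Real.log (x j)| :=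
        Finset.single_le_sum (f := fun j => |Real.log (x j)|) (fun i _ => abs_nonneg _)
          (by simp; omega)
      have := abs_nonneg (Real.log C)
      have := abs_nonneg (Real.log (1 / ((β + 1) * C)))
      linarith
  have hR0 : 0 ≤ R := (abs_nonneg _).trans (hR 0)
  have hb : ∀ i, 0 ≤ cyc k B i := fun i => hB _
  have key : ∀ c : ℝ, 0 ≤ c → c < 1 → 1 - 1 < c → ∀ z : ZMod k → ℝ,
      z = c • Psi l (cyc k B) z → ‖z‖ ≤ 2 * R := by
    intro c hc0 hc1 _ z hz
    -- the distance between the solution and the damped fixed point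
    let d : ℕ → ℝ := fun n => |Real.log (x n) - z (n : ZMod k)|
    let W : ℝ := R + ‖z‖
    have hW : ∀ n, d n ≤ W := by
      intro n
      have h1 : |Real.log (x n) - z (n : ZMod k)| ≤ |Real.log (x n)| + |z (n : ZMod k)| :=
        abs_sub _ _
      have h2 : |z (n : ZMod k)| ≤ ‖z‖ := norm_le_pi_norm z _
      have := hR n
      simp only [d, W]; linarith
    have hstep : ∀ n D, d (n + l) ≤ D → d n ≤ D → d (n + l + 1) ≤ c * D + (1 - c) * R := by
      intro n D h1 h2
      have hzn := congrFun hz ((n + l + 1 : ℕ) : ZMod k)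
      have e1 : (((n + l + 1 : ℕ) : ZMod k) - (l + 1 : ℕ)) = (n : ZMod k) := by
        push_cast; ring
      have e2 : (((n + l + 1 : ℕ) : ZMod k) - 1) = ((n + l : ℕ) : ZMod k) := by
        push_cast; ring
      simp only [Pi.smul_apply, smul_eq_mul, Psi] at hzn
      rw [e1, e2, periodic_val hper] at hzn
      have hxn : Real.log (x (n + l + 1)) =
          - Real.log (B n * Real.exp (Real.log (x (n + l))) + Real.exp (Real.log (x n))) := by
        rw [Real.exp_log (px _), Real.exp_log (px _), hx.2 n, one_div, Real.log_inv]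
      simp only [d, abs_le] at h1 h2
      have k1 := log_le_of (B n) (Real.log (x (n + l))) (Real.log (x n))
        (z ((n + l : ℕ) : ZMod k)) (z (n : ZMod k)) D (hB n) (by linarith) (by linarith)
      have k2 := log_le_of (B n) (z ((n + l : ℕ) : ZMod k)) (z (n : ZMod k))
        (Real.log (x (n + l))) (Real.log (x n)) D (hB n) (by linarith) (by linarith)
      have hRn := abs_le.mp (hR (n + l + 1))
      simp only [d]
      rw [abs_le]
      set A := Real.log (B n * Real.exp (Real.log (x (n + l))) + Real.exp (Real.log (x n)))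
      set A' := Real.log (B n * Real.exp (z ((n + l : ℕ) : ZMod k)) +
        Real.exp (z (n : ZMod k)))
      rw [hzn]
      constructor
      · have : c * (A' - A) ≥ c * (-D) := mul_le_mul_of_nonneg_left (by linarith) hc0
        have h3 : (1 - c) * Real.log (x (n + l + 1)) ≥ (1 - c) * (-R) :=
          mul_le_mul_of_nonneg_left hRn.1 (by linarith)
        have : Real.log (x (n + l + 1)) = c * (-A) + (1 - c) * Real.log (x (n + l + 1)) := by
          rw [hxn]; ring
        nlinarith
      · have : c * (A' - A) ≤ c * D := mul_le_mul_of_nonneg_left (by linarith) hc0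
        have h3 : (1 - c) * Real.log (x (n + l + 1)) ≤ (1 - c) * R :=
          mul_le_mul_of_nonneg_left hRn.2 (by linarith)
        have : Real.log (x (n + l + 1)) = c * (-A) + (1 - c) * Real.log (x (n + l + 1)) := by
          rw [hxn]; ring
        nlinarith
    have hind : ∀ m : ℕ, ∀ n, m * (l + 1) ≤ n → d n ≤ c ^ m * W + R := by
      intro m
      induction m with
      | zero => intro n _; simpa using (hW n).trans (by linarith)
      | succ m ih =>
        intro n hn
        obtain ⟨n', rfl⟩ : ∃ n', n = n' + l + 1 :=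
          ⟨n - l - 1, by
            have : l + 1 ≤ n := le_trans (by nlinarith) hn
            omega⟩
        have hn' : m * (l + 1) ≤ n' := by
          have : (m + 1) * (l + 1) = m * (l + 1) + (l + 1) := by ring
          omega
        have h1 := ih n' hn'
        have h2 := ih (n' + l) (by omega)
        have h3 := hstep n' _ h2 h1
        calc d (n' + l + 1) ≤ c * (c ^ m * W + R) + (1 - c) * R := h3
          _ = c ^ (m + 1) * W + R := by ring
    rw [pi_norm_le_iff_of_nonneg (by linarith)]
    intro i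
    have hlim : Tendsto (fun m : ℕ => c ^ m * W + 2 * R) atTop (𝓝 (0 * W + 2 * R)) :=
      ((tendsto_pow_atTop_nhds_zero_of_lt_one hc0 hc1).mul_const W).add_const _
    rw [zero_mul, zero_add] at hlim
    apply ge_of_tendsto' hlim
    intro m
    -- choose an index congruent to `i`
    have hn : ((i.val + k * (m * (l + 1)) : ℕ) : ZMod k) = i := by
      push_cast; simp
    have h1 := hind m (i.val + k * (m * (l + 1)))
      (le_trans (Nat.le_mul_of_pos_left _ hk) (Nat.le_add_left _ _))
    have h2 := hR (i.val + k * (m * (l + 1)))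
    simp only [d] at h1
    rw [hn] at h1
    rw [Real.norm_eq_abs]
    calc |z i| = |Real.log (x (i.val + k * (m * (l + 1)))) -
          (Real.log (x (i.val + k * (m * (l + 1)))) - z i)| := by ring_nf
      _ ≤ |Real.log (x (i.val + k * (m * (l + 1))))| +
          |Real.log (x (i.val + k * (m * (l + 1)))) - z i| := abs_sub _ _
      _ ≤ c ^ m * W + 2 * R := by linarith
  obtain ⟨z, hz⟩ := exists_fixed (l := l) (cyc k B) hb (2 * R) 1 one_pos key
  exact sol_of_fixed hB hper z hz

end Pool.Agent.LibMP975ca8
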