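import Pool.Agent.Lib_MP_975ca8_an.Basic

/-!
# Closed forms when `k ∣ l` or `k ∣ l + 2`
-/

namespace Pool.Agent.LibMP975ca8

variable {l k : ℕ} {B : ℕ → ℝ}

lemma bdd_iff_periodic (hk : 0 < k) (hB : ∀ n, 0 ≤ B n) (hper : ∀ n, B (n + k) = B n) :
    (∀ x, IsPosSol l B x → BddAbove (Set.range x)) ↔
      ∃ y, IsPosSol l B y ∧ ∀ j, y (j + k) = y j := by
  have : NeZero k := ⟨by omega⟩
  constructor
  · intro h
    obtain ⟨h1, -⟩ := mkSol_spec l B (fun _ => 1) (fun _ => one_pos)
    exact exists_periodic_of_bdd hB hper h1 (h _ h1)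
  · rintro ⟨y, hy, hyp⟩ x hx
    exact bdd_of_bdd hB hx hy (bdd_of_periodic (by omega) hyp)

lemma periodic_mul {y : ℕ → ℝ} (h : ∀ j, y (j + k) = y j) (t j : ℕ) :
    y (j + k * t) = y j := by
  induction t with
  | zero => simp
  | succ t ih => rw [show j + k * (t + 1) = (j + k * t) + k by ring, h, ih]

lemma periodic_dvd {y : ℕ → ℝ} (h : ∀ j, y (j + k) = y j) {m : ℕ} (hm : k ∣ m) (j : ℕ) :
    y (j + m) = y j := by
  obtain ⟨t, rfl⟩ := hm
  exact periodic_mul h t j

/-- A sequence of products of consecutive terms. -/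
lemma prod_pairs (y : ℕ → ℝ) (h : ℕ) :
    ∏ t ∈ Finset.range h, (y (2 * t) * y (2 * t + 1)) = ∏ j ∈ Finset.range (2 * h), y j := by
  induction h with
  | zero => simp
  | succ h ih =>
    rw [Finset.prod_range_succ, ih, show 2 * (h + 1) = 2 * h + 1 + 1 by ring,
      Finset.prod_range_succ, Finset.prod_range_succ]
    ring

lemma prod_shift (y : ℕ → ℝ) (h : ∀ j, y (j + k) = y j) :
    ∏ j ∈ Finset.range k, y (j + 1) = ∏ j ∈ Finset.range k, y j := by
  have h1 := Finset.prod_range_succ y k
  have h2 := Finset.prod_range_succ' y k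
  have h3 : y k = y 0 := by simpa using h 0
  rcases eq_or_ne (y 0) 0 with h0 | h0
  · rcases Nat.eq_zero_or_pos k with hk | hk
    · subst hk; simp
    · obtain ⟨m, rfl⟩ : ∃ m, k = m + 1 := ⟨k - 1, by omega⟩
      rw [Finset.prod_range_succ, Finset.prod_range_succ', h0, h3, h0]
  · have : (∏ j ∈ Finset.range k, y (j + 1)) * y 0 = (∏ j ∈ Finset.range k, y j) * y 0 := by
      rw [← h2, h1, h3]
    exact mul_right_cancel₀ h0 this

/-- Solving `y_n y_{n+1} = c_n` periodically. -/
lemma exists_pair_solution (hk : 0 < k) (c : ℕ → ℝ) (hc : ∀ n, 0 < c n)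
    (hper : ∀ n, c (n + k) = c n) :
    (∃ y : ℕ → ℝ, (∀ n, 0 < y n) ∧ (∀ n, y (n + k) = y n) ∧ ∀ n, y n * y (n + 1) = c n) ↔
      (Odd k ∨ ∏ t ∈ Finset.range (k / 2), c (2 * t) =
        ∏ t ∈ Finset.range (k / 2), c (2 * t + 1)) := by
  constructor
  · rintro ⟨y, hy, hyp, hs⟩
    rcases Nat.even_or_odd k with he | ho
    · right
      obtain ⟨h, rfl⟩ := he.two_dvd
      have e : 2 * h / 2 = h := by omega
      rw [e]
      have h1 : ∏ t ∈ Finset.range h, c (2 * t) = ∏ j ∈ Finset.range (2 * h), y j := by
        rw [← prod_pairs]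
        exact Finset.prod_congr rfl fun t _ => (hs (2 * t)).symm
      have h2 : ∏ t ∈ Finset.range h, c (2 * t + 1) =
          ∏ j ∈ Finset.range (2 * h), y (j + 1) := by
        rw [← prod_pairs (fun j => y (j + 1))]
        exact Finset.prod_congr rfl fun t _ => (hs (2 * t + 1)).symm
      rw [h1, h2, prod_shift y hyp]
    · exact Or.inl ho
  · intro hcond
    -- the recursion started at `s`
    obtain ⟨r, r0, rs⟩ : ∃ r : ℝ → ℕ → ℝ, (∀ s, r s 0 = s) ∧ ∀ s n, r s (n + 1) = c n / r s n :=
      ⟨fun s n => Nat.rec s (fun n y => c n / y) n, fun _ => rfl, fun _ _ => rfl⟩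
    have rpos : ∀ s, 0 < s → ∀ n, 0 < r s n := by
      intro s hs n
      induction n with
      | zero => rw [r0]; exact hs
      | succ n ih => rw [rs]; exact div_pos (hc n) ih
    -- it suffices to close up
    suffices h : ∃ s, 0 < s ∧ r s k = s by
      obtain ⟨s, hs, hsk⟩ := h
      refine ⟨r s, rpos s hs, ?_, ?_⟩
      · intro n
        induction n with
        | zero => rw [Nat.zero_add, hsk, r0]
        | succ n ih =>
          rw [show n + 1 + k = (n + k) + 1 by ring, rs, rs, ih, hper]
      · intro n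
        rw [rs]
        have := (rpos s hs n).ne'
        field_simp
    -- dependence on the starting value
    have rdep : ∀ s, 0 < s → ∀ n, r s (2 * n) = s * r 1 (2 * n) ∧
        r s (2 * n + 1) = r 1 (2 * n + 1) / s := by
      intro s hs n
      induction n with
      | zero =>
        constructor
        · simp [r0]
        · rw [rs, rs]; simp [r0]
      | succ n ih =>
        have p1 := (rpos 1 one_pos (2 * n + 1)).ne'
        have e1 : r s (2 * (n + 1)) = s * r 1 (2 * (n + 1)) := by
          rw [show 2 * (n + 1) = 2 * n + 1 + 1 by ring, rs s (2 * n + 1), rs 1 (2 * n + 1), ih.2]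
          field_simp
        refine ⟨e1, ?_⟩
        have p2 := (rpos 1 one_pos (2 * (n + 1))).ne'
        have q1 := rs s (2 * (n + 1))
        have q2 := rs 1 (2 * (n + 1))
        rw [q1, q2, e1]
        field_simp
    rcases Nat.even_or_odd k with he | ho
    · have hcond' : ∏ t ∈ Finset.range (k / 2), c (2 * t) =
          ∏ t ∈ Finset.range (k / 2), c (2 * t + 1) := by
        rcases hcond with ho | h
        · exact absurd he (Nat.not_even_iff_odd.mpr ho)
        · exact h
      refine ⟨1, one_pos, ?_⟩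
      obtain ⟨h, rfl⟩ := he.two_dvd
      have e : 2 * h / 2 = h := by omega
      rw [e] at hcond'
      have hprod : ∀ m, r 1 (2 * m) * ∏ t ∈ Finset.range m, c (2 * t) =
          ∏ t ∈ Finset.range m, c (2 * t + 1) := by
        intro m
        induction m with
        | zero => simp [r0]
        | succ m ih =>
          rw [Finset.prod_range_succ, Finset.prod_range_succ, ← ih,
            show 2 * (m + 1) = 2 * m + 1 + 1 by ring, rs, rs]
          have p1 := (rpos 1 one_pos (2 * m)).ne'
          have p2 := (hc (2 * m)).ne'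
          field_simp
      have := hprod h
      rw [hcond'] at this
      have hne : ∏ t ∈ Finset.range h, c (2 * t + 1) ≠ 0 :=
        (Finset.prod_pos fun t _ => hc _).ne'
      exact mul_eq_right₀ hne |>.mp this
    · obtain ⟨h, rfl⟩ := ho
      have hsq : 0 < Real.sqrt (r 1 (2 * h + 1)) := Real.sqrt_pos.mpr (rpos 1 one_pos (2 * h + 1))
      refine ⟨Real.sqrt (r 1 (2 * h + 1)), hsq, ?_⟩
      rw [(rdep _ hsq h).2]
      rw [Real.div_sqrt]

/-- Closed form when `k ∣ l`. -/
theorem periodic_iff_of_dvd (hk : 0 < k) (hB : ∀ n, 0 ≤ B n) (hper : ∀ n, B (n + k) = B n)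
    (hl : k ∣ l) :
    (∃ y, IsPosSol l B y ∧ ∀ j, y (j + k) = y j) ↔
      (Odd k ∨ ∏ t ∈ Finset.range (k / 2), (1 + B (2 * t)) =
        ∏ t ∈ Finset.range (k / 2), (1 + B (2 * t + 1))) := by
  have hc : ∀ n, 0 < 1 / (1 + B n) := fun n => by have := hB n; positivity
  have hcper : ∀ n, 1 / (1 + B (n + k)) = 1 / (1 + B n) := fun n => by rw [hper]
  have h := exists_pair_solution hk (fun n => 1 / (1 + B n)) hc hcper
  have e1 : (∃ y, IsPosSol l B y ∧ ∀ j, y (j + k) = y j) ↔
      (∃ y : ℕ → ℝ, (∀ n, 0 < y n) ∧ (∀ n, y (n + k) = y n) ∧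
        ∀ n, y n * y (n + 1) = 1 / (1 + B n)) := by
    constructor
    · rintro ⟨y, hy, hyp⟩
      refine ⟨y, hy.pos hB, hyp, ?_⟩
      intro n
      have h1 := hy.2 n
      have a1 : y (n + l + 1) = y (n + 1) := by
        rw [show n + l + 1 = n + 1 + l by ring]; exact periodic_dvd hyp hl _
      have a2 : y (n + l) = y n := periodic_dvd hyp hl _
      rw [a1, a2] at h1
      have := hy.pos hB n
      have := hB n
      rw [h1]
      field_simp
      ring
    · rintro ⟨y, hy, hyp, hs⟩
      refine ⟨y, ⟨fun j _ => hy j, ?_⟩, hyp⟩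
      intro n
      have a1 : y (n + l + 1) = y (n + 1) := by
        rw [show n + l + 1 = n + 1 + l by ring]; exact periodic_dvd hyp hl _
      have a2 : y (n + l) = y n := periodic_dvd hyp hl _
      rw [a1, a2]
      have h1 := hs n
      have h2 := hy n
      have h3 := hB n
      have h4 : y (n + 1) = 1 / (1 + B n) / y n := by
        rw [← h1]; field_simp
      rw [h4]
      field_simp
      ring
  rw [e1, h]
  have e2 : ∀ f : ℕ → ℕ, ∏ t ∈ Finset.range (k / 2), 1 / (1 + B (f t)) =
      (∏ t ∈ Finset.range (k / 2), (1 + B (f t)))⁻¹ := by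
    intro f
    rw [← Finset.prod_inv_distrib]
    exact Finset.prod_congr rfl fun t _ => by rw [one_div]
  rw [e2, e2, inv_inj]

/-- Reduction when `k ∣ l + 2`: a linear system and, for even `k`, one product identity. -/
theorem periodic_iff_of_dvd_add_two (hk : 0 < k) (hB : ∀ n, 0 ≤ B n)
    (hl : k ∣ l + 2) :
    (∃ y, IsPosSol l B y ∧ ∀ j, y (j + k) = y j) ↔
      ∃ u : ℕ → ℝ, (∀ n, 0 < u n) ∧ (∀ n, u (n + k) = u n) ∧ (∀ n, u (n + 1) + B n * u n = 1) ∧
        (Odd k ∨ ∏ t ∈ Finset.range (k / 2), u (2 * t) =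
          ∏ t ∈ Finset.range (k / 2), u (2 * t + 1)) := by
  constructor
  · rintro ⟨y, hy, hyp⟩
    have py := hy.pos hB
    -- `u n = x_n x_{n+1}` in the original indexing
    have hu0 : ∀ n, 0 < y (n + l) * y (n + l + 1) := fun n => mul_pos (py _) (py _)
    have hup : ∀ n, y (n + k + l) * y (n + k + l + 1) = y (n + l) * y (n + l + 1) := by
      intro n
      rw [show n + k + l = (n + l) + k by ring, hyp, show n + l + k + 1 = (n + l + 1) + k by ring,
        hyp]
    refine ⟨fun n => y (n + l) * y (n + l + 1), hu0, hup, ?_, ?_⟩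
    · intro n
      have h1 := hy.2 n
      have a1 : y (n + 1 + l + 1) = y n := by
        rw [show n + 1 + l + 1 = n + (l + 2) by ring]; exact periodic_dvd hyp hl _
      show y (n + 1 + l) * y (n + 1 + l + 1) + B n * (y (n + l) * y (n + l + 1)) = 1
      rw [a1, show n + 1 + l = n + l + 1 by ring]
      have d : 0 < B n * y (n + l) + y n := by
        have := mul_nonneg (hB n) (py (n + l)).le
        have := py n
        linarith
      rw [h1]
      field_simp
      ring
    · exact (exists_pair_solution hk _ hu0 hup).mp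
        ⟨fun n => y (n + l), fun n => py _, fun n => by
          show y (n + k + l) = y (n + l)
          rw [show n + k + l = (n + l) + k by ring, hyp], fun n => by
          show y (n + l) * y (n + 1 + l) = y (n + l) * y (n + l + 1)
          rw [show n + 1 + l = n + l + 1 by ring]⟩
  · rintro ⟨u, hu, hup, hlin, hcond⟩
    obtain ⟨w, hw, hwp, hws⟩ := (exists_pair_solution hk u hu hup).mpr hcond
    -- `w n = x_n`; shift back by `l`, i.e. forward by two
    have hw2 : ∀ n, w (n + l + 2) = w n := fun n => by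
      rw [show n + l + 2 = n + (l + 2) by ring]; exact periodic_dvd hwp hl n
    refine ⟨fun j => w (j + 2), ⟨fun j _ => hw _, ?_⟩, ?_⟩
    · intro n
      show w (n + l + 1 + 2) = 1 / (B n * w (n + l + 2) + w (n + 2))
      have a1 : w (n + l + 1 + 2) = w (n + 1) := by
        rw [show n + l + 1 + 2 = (n + 1) + l + 2 by ring, hw2]
      rw [a1, hw2]
      have h1 := hws n
      have h2 := hws (n + 1)
      have h3 := hlin n
      rw [← h1, ← h2] at h3
      apply eq_one_div_of_mul_eq_one_right
      rw [← h3]; ring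
    · intro j
      show w (j + k + 2) = w (j + 2)
      rw [show j + k + 2 = (j + 2) + k by ring, hwp]

/-- The alternating sums `1 - B_{m-1} + B_{m-1} B_{m-2} - …` with `m = n + k`. -/
noncomputable def altSum (k : ℕ) (B : ℕ → ℝ) (n : ℕ) : ℝ :=
  ∑ j ∈ Finset.range k, (-1) ^ j * ∏ i ∈ Finset.range j, B (n + k - 1 - i)

lemma iterate_linear (B : ℕ → ℝ) (u : ℕ → ℝ) (hlin : ∀ n, u (n + 1) + B n * u n = 1) (n m : ℕ) :
    u (n + m) = ∑ j ∈ Finset.range m, (-1) ^ j * ∏ i ∈ Finset.range j, B (n + m - 1 - i) +
      (-1) ^ m * (∏ i ∈ Finset.range m, B (n + i)) * u n := by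
  induction m with
  | zero => simp
  | succ m ih =>
    have h1 : u (n + (m + 1)) = 1 - B (n + m) * u (n + m) := by
      have := hlin (n + m)
      rw [show n + (m + 1) = n + m + 1 by ring]
      linarith
    rw [h1, ih, Finset.sum_range_succ' _ m, Finset.prod_range_succ (fun i => B (n + i)) m]
    have h2 : ∑ j ∈ Finset.range m,
        (-1 : ℝ) ^ (j + 1) * ∏ i ∈ Finset.range (j + 1), B (n + (m + 1) - 1 - i) =
        - B (n + m) * ∑ j ∈ Finset.range m,
          (-1) ^ j * ∏ i ∈ Finset.range j, B (n + m - 1 - i) := by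
      rw [Finset.mul_sum]
      apply Finset.sum_congr rfl
      intro j _
      rw [Finset.prod_range_succ', pow_succ]
      have e : n + (m + 1) - 1 - 0 = n + m := by omega
      have e2 : ∏ i ∈ Finset.range j, B (n + (m + 1) - 1 - (i + 1)) =
          ∏ i ∈ Finset.range j, B (n + m - 1 - i) :=
        Finset.prod_congr rfl fun i _ => by congr 1; omega
      rw [e, e2]
      ring
    rw [h2]
    simp only [pow_zero, Finset.range_zero, Finset.prod_empty, mul_one, pow_succ]
    ring

/-- Closed form when `k` is odd and `k ∣ l + 2`. -/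
theorem periodic_iff_of_odd_dvd_add_two (hk : Odd k) (hB : ∀ n, 0 ≤ B n)
    (hper : ∀ n, B (n + k) = B n) (hl : k ∣ l + 2) :
    (∃ y, IsPosSol l B y ∧ ∀ j, y (j + k) = y j) ↔ ∀ n < k, 0 < altSum k B n := by
  have hk0 : 0 < k := hk.pos
  rw [periodic_iff_of_dvd_add_two hk0 hB hl]
  -- the full product
  set Q : ℝ := ∏ i ∈ Finset.range k, B i with hQ
  have hQ0 : 0 ≤ Q := Finset.prod_nonneg fun i _ => hB i
  have hQn : ∀ n, ∏ i ∈ Finset.range k, B (n + i) = Q := by
    intro n
    induction n with
    | zero => simp [hQ]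
    | succ n ih =>
      rw [← ih, ← prod_shift (fun j => B (n + j)) (fun j => by
        show B (n + (j + k)) = B (n + j)
        rw [← add_assoc, hper])]
      exact Finset.prod_congr rfl fun i _ => by rw [show n + 1 + i = n + (i + 1) by ring]
  have hodd : (-1 : ℝ) ^ k = -1 := hk.neg_one_pow
  constructor
  · rintro ⟨u, hu, hup, hlin, -⟩ n _
    have h1 := iterate_linear B u hlin n k
    rw [hup, hQn, hodd] at h1
    have h2 : altSum k B n = (1 + Q) * u n := by
      unfold altSum
      linarith
    rw [h2]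
    have := hu n
    positivity
  · intro hS
    -- the solution of the linear system
    have hSper : ∀ n, altSum k B (n + k) = altSum k B n := by
      intro n
      unfold altSum
      apply Finset.sum_congr rfl
      intro j hj
      congr 1
      apply Finset.prod_congr rfl
      intro i hi
      simp only [Finset.mem_range] at hj hi
      rw [show n + k + k - 1 - i = (n + k - 1 - i) + k by omega, hper]
    have hSpos : ∀ n, 0 < altSum k B n := by
      intro n
      have h1 : altSum k B n = altSum k B (n % k) := by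
        conv_lhs => rw [← Nat.mod_add_div n k]
        exact periodic_mul hSper _ _
      rw [h1]
      exact hS _ (Nat.mod_lt _ hk0)
    have hden : 0 < 1 + Q := by positivity
    refine ⟨fun n => altSum k B n / (1 + Q), fun n => div_pos (hSpos n) hden, fun n => by
      show altSum k B (n + k) / (1 + Q) = altSum k B n / (1 + Q)
      rw [hSper], ?_, Or.inl hk⟩
    intro n
    show altSum k B (n + 1) / (1 + Q) + B n * (altSum k B n / (1 + Q)) = 1
    have key : altSum k B (n + 1) + B n * altSum k B n = 1 + Q := by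
      obtain ⟨m, rfl⟩ : ∃ m, k = m + 1 := ⟨k - 1, by omega⟩
      -- split off the first term of `altSum (n+1)` and the last term of `altSum n`
      have h1 : altSum (m + 1) B (n + 1) =
          (∑ j ∈ Finset.range m, (-1) ^ (j + 1) *
            ∏ i ∈ Finset.range (j + 1), B (n + 1 + (m + 1) - 1 - i)) + 1 := by
        unfold altSum
        rw [Finset.sum_range_succ']
        simp
      have h2 : altSum (m + 1) B n =
          (∑ j ∈ Finset.range m, (-1) ^ j *
            ∏ i ∈ Finset.range j, B (n + (m + 1) - 1 - i)) +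
          (-1) ^ m * ∏ i ∈ Finset.range m, B (n + (m + 1) - 1 - i) := by
        unfold altSum
        rw [Finset.sum_range_succ]
      have hBn : B (n + (m + 1)) = B n := hper n
      have h3 : ∑ j ∈ Finset.range m, (-1 : ℝ) ^ (j + 1) *
            ∏ i ∈ Finset.range (j + 1), B (n + 1 + (m + 1) - 1 - i) =
          - B n * ∑ j ∈ Finset.range m, (-1) ^ j *
            ∏ i ∈ Finset.range j, B (n + (m + 1) - 1 - i) := by
        rw [Finset.mul_sum]
        apply Finset.sum_congr rfl
        intro j _
        rw [Finset.prod_range_succ', pow_succ]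
        have e : n + 1 + (m + 1) - 1 - 0 = n + (m + 1) := by omega
        have e2 : ∏ i ∈ Finset.range j, B (n + 1 + (m + 1) - 1 - (i + 1)) =
            ∏ i ∈ Finset.range j, B (n + (m + 1) - 1 - i) :=
          Finset.prod_congr rfl fun i _ => by congr 1; omega
        rw [e, e2, hBn]
        ring
      have h4 : B n * ∏ i ∈ Finset.range m, B (n + (m + 1) - 1 - i) = Q := by
        rw [← hQn n, Finset.prod_range_succ', add_zero, mul_comm]
        congr 1
        rw [← Finset.prod_range_reflect]
        apply Finset.prod_congr rfl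
        intro i hi
        simp only [Finset.mem_range] at hi
        congr 1
        omega
      have h5 : (-1 : ℝ) ^ m = 1 := by
        have : (-1 : ℝ) ^ (m + 1) = -1 := hodd
        rw [pow_succ] at this
        linarith
      rw [h1, h2, h3, h5, one_mul, mul_add, h4]
      ring
    rw [mul_div_assoc', ← add_div, key, div_self hden.ne']

end Pool.Agent.LibMP975ca8
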