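import Pool.Agent.Lib_MP_975ca8_an.Basic

/-!
# Positive coefficients: the role of `gcd (k, l + 2)`
-/

namespace Pool.Agent.LibMP975ca8

open Filter Topology

variable {l k : ℕ} {B : ℕ → ℝ}

/-- The logarithm of the denominator at `i`. -/
noncomputable def lse (l : ℕ) (b : ZMod k → ℝ) (z : ZMod k → ℝ) (i : ZMod k) : ℝ :=
  Real.log (b (i - (l + 1 : ℕ)) * Real.exp (z (i - 1)) + Real.exp (z (i - (l + 1 : ℕ))))

section lse

variable (b z : ZMod k → ℝ) (hb : ∀ i, 0 < b i)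

include hb

lemma lse_arg_pos (i : ZMod k) :
    0 < b (i - (l + 1 : ℕ)) * Real.exp (z (i - 1)) + Real.exp (z (i - (l + 1 : ℕ))) := by
  have := hb (i - (l + 1 : ℕ))
  positivity

lemma lse_ge1 (i : ZMod k) : Real.log (b (i - (l + 1 : ℕ))) + z (i - 1) ≤ lse l b z i := by
  have h := hb (i - (l + 1 : ℕ))
  rw [lse, Real.le_log_iff_exp_le (lse_arg_pos b z hb i), Real.exp_add, Real.exp_log h]
  have := Real.exp_pos (z (i - (l + 1 : ℕ)))
  linarith

lemma lse_ge2 (i : ZMod k) : z (i - (l + 1 : ℕ)) ≤ lse l b z i := by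
  have h := hb (i - (l + 1 : ℕ))
  rw [lse, Real.le_log_iff_exp_le (lse_arg_pos b z hb i)]
  have := mul_pos h (Real.exp_pos (z (i - 1)))
  linarith

lemma lse_le (i : ZMod k) (D : ℝ) (h1 : Real.log (b (i - (l + 1 : ℕ))) + z (i - 1) ≤ D)
    (h2 : z (i - (l + 1 : ℕ)) ≤ D) : lse l b z i ≤ D + 1 := by
  have h := hb (i - (l + 1 : ℕ))
  have e1 : b (i - (l + 1 : ℕ)) * Real.exp (z (i - 1)) ≤ Real.exp D := by
    rw [← Real.exp_log h, ← Real.exp_add]
    exact Real.exp_le_exp.mpr h1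
  have e2 : Real.exp (z (i - (l + 1 : ℕ))) ≤ Real.exp D := Real.exp_le_exp.mpr h2
  have e3 : (2 : ℝ) ≤ Real.exp 1 := by
    have := Real.add_one_le_exp (1 : ℝ); linarith
  rw [lse, Real.log_le_iff_le_exp (lse_arg_pos b z hb i), Real.exp_add]
  have := Real.exp_pos D
  nlinarith

/-- The key propagation: if `z i` is large then `z (i - (l + 2))` is comparably large. -/
lemma key_step (K K0 : ℝ) (hK : ∀ i, |Real.log (b i)| ≤ K) (hK0 : 0 ≤ K0)
    (hz : ∀ i, |z i + lse l b z i| ≤ K0) (i : ZMod k) (w : ℝ) (hw : w ≤ z i) :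
    w - (6 * K0 + 6 * K + 6) ≤ z (i - (l + 2 : ℕ)) := by
  have hKpos : 0 ≤ K := (abs_nonneg _).trans (hK 0)
  have q1 : i - 1 - (l + 1 : ℕ) = i - (l + 2 : ℕ) := by push_cast; ring
  have q2 : i - (l + 1 : ℕ) - 1 = i - (l + 2 : ℕ) := by push_cast; ring
  -- facts at i
  have a1 := lse_ge1 (l := l) b z hb i
  have a2 := lse_ge2 (l := l) b z hb i
  have hi := abs_le.mp (hz i)
  have b1 := abs_le.mp (hK (i - (l + 1 : ℕ)))
  have c1 : z (i - 1) ≤ -w + K0 + K := by linarith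
  have c2 : z (i - (l + 1 : ℕ)) ≤ -w + K0 := by linarith
  have hi1 := abs_le.mp (hz (i - 1))
  have hi2 := abs_le.mp (hz (i - (l + 1 : ℕ)))
  by_contra hcon
  push Not at hcon
  -- z (i-2) is large
  have d1 : w - 3 * K0 - 3 * K - 2 ≤ z (i - 1 - 1) := by
    by_contra h
    push Not at h
    have bb := abs_le.mp (hK (i - 1 - (l + 1 : ℕ)))
    have := lse_le (l := l) b z hb (i - 1) (w - 3 * K0 - 2 * K - 2) (by linarith)
      (by rw [q1]; linarith)
    linarith
  have d2 : w - 3 * K0 - 3 * K - 2 ≤ z (i - (l + 1 : ℕ) - (l + 1 : ℕ)) := by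
    by_contra h
    push Not at h
    have bb := abs_le.mp (hK (i - (l + 1 : ℕ) - (l + 1 : ℕ)))
    have := lse_le (l := l) b z hb (i - (l + 1 : ℕ)) (w - 3 * K0 - 2 * K - 2)
      (by rw [q2]; linarith) (by linarith)
    linarith
  have hi3 := abs_le.mp (hz (i - 1 - 1))
  have hi4 := abs_le.mp (hz (i - (l + 1 : ℕ) - (l + 1 : ℕ)))
  have e1 := lse_ge2 (l := l) b z hb (i - 1 - 1)
  have e2 := lse_ge1 (l := l) b z hb (i - (l + 1 : ℕ) - (l + 1 : ℕ))
  have b2 := abs_le.mp (hK (i - (l + 1 : ℕ) - (l + 1 : ℕ) - (l + 1 : ℕ)))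
  -- neighbours of i - q are small
  have q3 : i - 1 - 1 - (l + 1 : ℕ) = i - (l + 2 : ℕ) - 1 := by push_cast; ring
  have q4 : i - (l + 1 : ℕ) - (l + 1 : ℕ) - 1 = i - (l + 2 : ℕ) - (l + 1 : ℕ) := by
    push_cast; ring
  rw [q3] at e1
  rw [q4] at e2
  have b3 := abs_le.mp (hK (i - (l + 2 : ℕ) - (l + 1 : ℕ)))
  have := lse_le (l := l) b z hb (i - (l + 2 : ℕ)) (-w + 4 * K0 + 5 * K + 2)
    (by linarith) (by linarith)
  have hi5 := abs_le.mp (hz (i - (l + 2 : ℕ)))
  linarith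

end lse

section damped

variable [NeZero k]

/-- Damped fixed points nearly solve the equation, with a definite sign of the error. -/
lemma damped_near (b : ZMod k → ℝ) (hb : ∀ i, 0 < b i) (c : ℝ) (hc0 : 1 / 2 < c) (hc1 : c < 1)
    (z : ZMod k → ℝ) (hz : z = c • Psi l b z) :
    (∀ i, |z i + lse l b z i| ≤ 2 * ‖Psi (l := l) b 0‖) ∧
    (∀ i, 0 ≤ z i → z i ≤ - lse l b z i) ∧ (∀ i, z i ≤ 0 → - lse l b z i ≤ z i) := by
  have hzi : ∀ i, z i = - c * lse l b z i := by
    intro i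
    have := congrFun hz i
    simp only [Pi.smul_apply, smul_eq_mul, Psi] at this
    rw [this, lse]; ring
  have hn : ‖z‖ ≤ c * (‖z‖ + ‖Psi (l := l) b 0‖) := by
    have h1 := Psi_dist (l := l) b (fun i => (hb i).le) z 0
    rw [dist_zero_right] at h1
    have h2 : ‖Psi l b z‖ ≤ ‖z‖ + ‖Psi (l := l) b 0‖ := by
      calc ‖Psi l b z‖ = ‖(Psi l b z - Psi l b 0) + Psi l b 0‖ := by simp
        _ ≤ ‖Psi l b z - Psi l b 0‖ + ‖Psi (l := l) b 0‖ := norm_add_le _ _
        _ ≤ ‖z‖ + ‖Psi (l := l) b 0‖ := by rw [← dist_eq_norm]; linarith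
    calc ‖z‖ = ‖c • Psi l b z‖ := by rw [← hz]
      _ = c * ‖Psi l b z‖ := by
          rw [norm_smul, Real.norm_eq_abs, abs_of_pos (by linarith)]
      _ ≤ _ := mul_le_mul_of_nonneg_left h2 (by linarith)
  set N := ‖Psi (l := l) b (0 : ZMod k → ℝ)‖ with hN
  have hN0 : 0 ≤ N := norm_nonneg _
  have hlse : ∀ i, lse l b z i = - z i / c := by
    intro i
    rw [hzi i]; field_simp
  refine ⟨?_, ?_, ?_⟩
  · intro i
    have h1 : |z i| ≤ ‖z‖ := norm_le_pi_norm z i
    rw [hlse i]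
    have h2 : z i + - z i / c = - (z i * (1 - c) / c) := by field_simp; ring
    rw [h2, abs_neg, abs_div, abs_mul, abs_of_pos (show 0 < 1 - c by linarith),
      abs_of_pos (show 0 < c by linarith), div_le_iff₀ (by linarith)]
    have h3 : ‖z‖ * (1 - c) ≤ c * N := by nlinarith
    have h4 : |z i| * (1 - c) ≤ ‖z‖ * (1 - c) := mul_le_mul_of_nonneg_right h1 (by linarith)
    nlinarith
  · intro i hi
    rw [hlse i]
    have : - (- z i / c) = z i / c := by ring
    rw [this, le_div_iff₀ (by linarith)]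
    nlinarith
  · intro i hi
    rw [hlse i]
    have : - (- z i / c) = z i / c := by ring
    rw [this, div_le_iff₀ (by linarith)]
    nlinarith

lemma exists_K (b : ZMod k → ℝ) : ∃ K : ℝ, 0 ≤ K ∧ ∀ i, |Real.log (b i)| ≤ K := by
  refine ⟨∑ i, |Real.log (b i)|, Finset.sum_nonneg fun _ _ => abs_nonneg _, fun i => ?_⟩
  exact Finset.single_le_sum (f := fun i => |Real.log (b i)|) (fun i _ => abs_nonneg _)
    (Finset.mem_univ i)

/-- Iterating the key step. -/
lemma key_iter (b z : ZMod k → ℝ) (hb : ∀ i, 0 < b i) (K K0 : ℝ)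
    (hK : ∀ i, |Real.log (b i)| ≤ K) (hK0 : 0 ≤ K0)
    (hz : ∀ i, |z i + lse l b z i| ≤ K0) (i : ZMod k) (j : ℕ) :
    z i - j * (6 * K0 + 6 * K + 6) ≤ z (i - (j * (l + 2) : ℕ)) := by
  induction j with
  | zero => simp
  | succ j ih =>
    have h := key_step (l := l) b z hb K K0 hK hK0 hz _ _ ih
    have e : i - (j * (l + 2) : ℕ) - (l + 2 : ℕ) = i - ((j + 1) * (l + 2) : ℕ) := by
      push_cast; ring
    rw [e] at h
    push_cast at h ⊢
    linarith

/-- If `gcd (k, l + 2) = g` and `g ∣ m`, then `m` is a multiple of `l + 2` modulo `k`. -/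
lemma exists_mult (k q : ℕ) (m : ℕ) (hk : 0 < k) (h : Nat.gcd k q ∣ m) :
    ∃ j < k, ((j * q : ℕ) : ZMod k) = (m : ZMod k) := by
  obtain ⟨t, ht⟩ := h
  -- Bezout
  have hbez := Nat.gcd_eq_gcd_ab k q
  have h1 : ((Nat.gcd k q : ℕ) : ZMod k) = (q : ZMod k) * ((Nat.gcdB k q : ℤ) : ZMod k) := by
    have := congrArg (fun x : ℤ => (x : ZMod k)) hbez
    push_cast at this
    simpa using this
  haveI : NeZero k := ⟨by omega⟩
  refine ⟨(((Nat.gcdB k q : ℤ) : ZMod k) * (t : ZMod k)).val, ZMod.val_lt _, ?_⟩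
  push_cast
  rw [ZMod.natCast_val, ZMod.cast_id', id_eq, ht]
  push_cast
  rw [h1]; ring

end damped

/-- **gcd 1**: every positive solution is bounded. -/
theorem bdd_of_gcd_one (hk : 0 < k) (hB : ∀ n, 0 < B n) (hper : ∀ n, B (n + k) = B n)
    (hg : Nat.gcd k (l + 2) = 1) :
    ∃ y, IsPosSol l B y ∧ ∀ j, y (j + k) = y j := by
  haveI : NeZero k := ⟨by omega⟩
  set b := cyc k B with hbdef
  have hb : ∀ i, 0 < b i := fun i => hB _
  obtain ⟨K, hK0', hK⟩ := exists_K b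
  set N := ‖Psi (l := l) b (0 : ZMod k → ℝ)‖ with hN
  have hN0 : 0 ≤ N := norm_nonneg _
  set C := 6 * (2 * N) + 6 * K + 6 with hC
  have hC0 : 0 ≤ C := by positivity
  obtain ⟨z, hz⟩ := exists_fixed (l := l) b (fun i => (hb i).le) (k * C + 2 * K + 2 * N + 1 +
    (K + 2 * N)) (1 / 2)
    (by norm_num) (by
    intro c _ hc1 hc2 z hz
    obtain ⟨h1, -, -⟩ := damped_near (l := l) b hb c (by linarith) hc1 z hz
    -- every pair of values is comparable
    have hcomp : ∀ i i', z i - k * C ≤ z i' := by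
      intro i i'
      obtain ⟨j, hj, hj2⟩ := exists_mult k (l + 2) (i - i').val hk (by rw [hg]; exact one_dvd _)
      have h2 := key_iter (l := l) b z hb K (2 * N) hK (by positivity) h1 i j
      rw [hj2, ZMod.natCast_val, ZMod.cast_id', id_eq] at h2
      have e : i - (i - i') = i' := by ring
      rw [e] at h2
      have hjk : (j : ℝ) ≤ k := by exact_mod_cast hj.le
      have : (j : ℝ) * C ≤ k * C := mul_le_mul_of_nonneg_right hjk hC0
      linarith
    have hup : ∀ i, z i ≤ k * C + K + 2 * N := by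
      intro i
      have h2 := abs_le.mp (h1 i)
      have h3 := lse_ge1 (l := l) b z hb i
      have h4 := abs_le.mp (hK (i - (l + 1 : ℕ)))
      have h5 := hcomp i (i - 1)
      have hkC : 0 ≤ (k : ℝ) * C := by positivity
      by_contra hcon
      push Not at hcon
      linarith
    rw [pi_norm_le_iff_of_nonneg (by positivity)]
    intro i
    rw [Real.norm_eq_abs, abs_le]
    have h2 := abs_le.mp (h1 i)
    have h4 := abs_le.mp (hK (i - (l + 1 : ℕ)))
    constructor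
    · have h3 := lse_le (l := l) b z hb i (k * C + K + 2 * N + K)
        (by have := hup (i - 1); linarith) (by have := hup (i - (l + 1 : ℕ)); linarith)
      linarith
    · have := hup i
      linarith)
  exact sol_of_fixed (fun n => (hB n).le) hper z hz

end Pool.Agent.LibMP975ca8
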