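import Pool.Agent.Lib_MP_975ca8_an.Gcd

/-!
# Positive coefficients with `gcd (k, l + 2) = 3`
-/

namespace Pool.Agent.LibMP975ca8

open Filter Topology

variable {l k : ℕ} {B : ℕ → ℝ}

/-- The growth factor. -/
noncomputable def gr (l : ℕ) (b : ZMod k → ℝ) (i : ZMod k) : ℝ :=
  b i / (1 + b i * b (i + (l + 1 : ℕ)))

lemma gr_pos (b : ZMod k → ℝ) (hb : ∀ i, 0 < b i) (i : ZMod k) : 0 < gr l b i := by
  have := hb i; have := hb (i + (l + 1 : ℕ))
  unfold gr; positivity

lemma log_gr (b : ZMod k → ℝ) (hb : ∀ i, 0 < b i) (i : ZMod k) :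
    Real.log (gr l b (i - (l + 1 : ℕ) - (l + 1 : ℕ))) =
      - Real.log (b (i - (l + 1 : ℕ)) + 1 / b (i - (l + 1 : ℕ) - (l + 1 : ℕ))) := by
  have h1 := hb (i - (l + 1 : ℕ) - (l + 1 : ℕ))
  have h2 := hb (i - (l + 1 : ℕ))
  rw [← Real.log_inv, gr, sub_add_cancel]
  congr 1
  field_simp
  ring

/-- In the exact equation the growth inequality is strict. -/
lemma exact_step (b z : ZMod k → ℝ) (hb : ∀ i, 0 < b i) (hz : ∀ i, z i = - lse l b z i)
    (i : ZMod k) :
    z (i - (l + 2 : ℕ)) + Real.log (gr l b (i - (l + 1 : ℕ) - (l + 1 : ℕ))) < z i := by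
  have q1 : i - 1 - (l + 1 : ℕ) = i - (l + 2 : ℕ) := by push_cast; ring
  have q2 : i - (l + 1 : ℕ) - 1 = i - (l + 2 : ℕ) := by push_cast; ring
  rw [log_gr b hb, hz i, lse]
  have h0 := hb (i - (l + 1 : ℕ))
  have h2 := hb (i - (l + 1 : ℕ) - (l + 1 : ℕ))
  have h3 := hb (i - 1 - (l + 1 : ℕ))
  -- exponentials of the neighbours
  have e1 : Real.exp (z (i - 1)) < Real.exp (- z (i - (l + 2 : ℕ))) := by
    apply Real.exp_lt_exp.mpr
    rw [hz (i - 1), neg_lt_neg_iff, lse, Real.lt_log_iff_exp_lt (lse_arg_pos b z hb _), q1]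
    have := mul_pos h3 (Real.exp_pos (z (i - 1 - 1)))
    rw [q1] at this
    linarith
  have e2 : Real.exp (z (i - (l + 1 : ℕ))) <
      1 / b (i - (l + 1 : ℕ) - (l + 1 : ℕ)) * Real.exp (- z (i - (l + 2 : ℕ))) := by
    have : Real.exp (z (i - (l + 1 : ℕ))) =
        (b (i - (l + 1 : ℕ) - (l + 1 : ℕ)) * Real.exp (z (i - (l + 2 : ℕ))) +
          Real.exp (z (i - (l + 1 : ℕ) - (l + 1 : ℕ))))⁻¹ := by
      rw [hz (i - (l + 1 : ℕ)), Real.exp_neg, lse, Real.exp_log (lse_arg_pos b z hb _), q2]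
    rw [this, Real.exp_neg, one_div, ← mul_inv]
    have p1 := mul_pos h2 (Real.exp_pos (z (i - (l + 2 : ℕ))))
    have p2 := Real.exp_pos (z (i - (l + 1 : ℕ) - (l + 1 : ℕ)))
    exact inv_strictAnti₀ p1 (by linarith)
  have e3 : b (i - (l + 1 : ℕ)) * Real.exp (z (i - 1)) + Real.exp (z (i - (l + 1 : ℕ))) <
      (b (i - (l + 1 : ℕ)) + 1 / b (i - (l + 1 : ℕ) - (l + 1 : ℕ))) *
        Real.exp (- z (i - (l + 2 : ℕ))) := by
    have := mul_lt_mul_of_pos_left e1 h0
    nlinarith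
  have p3 : 0 < b (i - (l + 1 : ℕ)) + 1 / b (i - (l + 1 : ℕ) - (l + 1 : ℕ)) := by positivity
  have e4 := Real.log_lt_log (lse_arg_pos b z hb i) e3
  rw [Real.log_mul p3.ne' (Real.exp_pos _).ne', Real.log_exp] at e4
  linarith

/-- Approximate upper bound in the damped equation. -/
lemma damped_step (b z : ZMod k → ℝ) (hb : ∀ i, 0 < b i) (η : ℝ)
    (i : ZMod k)
    (hz0 : z i ≤ - lse l b z i)
    (hz1 : - lse l b z (i - 1) ≤ z (i - 1))
    (hz2 : - lse l b z (i - (l + 1 : ℕ)) ≤ z (i - (l + 1 : ℕ)))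
    (h1 : b (i - (l + 2 : ℕ)) * Real.exp (z (i - 1 - 1)) ≤ η * Real.exp (z (i - (l + 2 : ℕ))))
    (h2 : Real.exp (z (i - (l + 1 : ℕ) - (l + 1 : ℕ))) ≤
      η * (b (i - (l + 1 : ℕ) - (l + 1 : ℕ)) * Real.exp (z (i - (l + 2 : ℕ))))) :
    z i ≤ z (i - (l + 2 : ℕ)) + η + Real.log (gr l b (i - (l + 1 : ℕ) - (l + 1 : ℕ))) := by
  have q1 : i - 1 - (l + 1 : ℕ) = i - (l + 2 : ℕ) := by push_cast; ring
  have q2 : i - (l + 1 : ℕ) - 1 = i - (l + 2 : ℕ) := by push_cast; ring
  have hexp : 1 + η ≤ Real.exp η := by linarith [Real.add_one_le_exp η]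
  have h0 := hb (i - (l + 1 : ℕ))
  have hb2 := hb (i - (l + 1 : ℕ) - (l + 1 : ℕ))
  rw [log_gr b hb]
  have a1 : lse l b z (i - 1) ≤ z (i - (l + 2 : ℕ)) + η := by
    rw [lse, Real.log_le_iff_le_exp (lse_arg_pos b z hb _), q1, Real.exp_add]
    have := Real.exp_pos (z (i - (l + 2 : ℕ)))
    nlinarith
  have a2 : lse l b z (i - (l + 1 : ℕ)) ≤
      Real.log (b (i - (l + 1 : ℕ) - (l + 1 : ℕ))) + z (i - (l + 2 : ℕ)) + η := by
    rw [lse, Real.log_le_iff_le_exp (lse_arg_pos b z hb _), q2, Real.exp_add, Real.exp_add,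
      Real.exp_log hb2]
    have := mul_pos hb2 (Real.exp_pos (z (i - (l + 2 : ℕ))))
    nlinarith
  have e1 : Real.exp (- z (i - (l + 2 : ℕ)) - η) ≤ Real.exp (z (i - 1)) :=
    Real.exp_le_exp.mpr (by linarith)
  have e2 : 1 / b (i - (l + 1 : ℕ) - (l + 1 : ℕ)) * Real.exp (- z (i - (l + 2 : ℕ)) - η) ≤
      Real.exp (z (i - (l + 1 : ℕ))) := by
    have : 1 / b (i - (l + 1 : ℕ) - (l + 1 : ℕ)) =
        Real.exp (- Real.log (b (i - (l + 1 : ℕ) - (l + 1 : ℕ)))) := by
      rw [Real.exp_neg, Real.exp_log hb2, one_div]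
    rw [this, ← Real.exp_add]
    exact Real.exp_le_exp.mpr (by linarith)
  have p3 : 0 < b (i - (l + 1 : ℕ)) + 1 / b (i - (l + 1 : ℕ) - (l + 1 : ℕ)) := by positivity
  have e3 : (b (i - (l + 1 : ℕ)) + 1 / b (i - (l + 1 : ℕ) - (l + 1 : ℕ))) *
        Real.exp (- z (i - (l + 2 : ℕ)) - η) ≤
      b (i - (l + 1 : ℕ)) * Real.exp (z (i - 1)) + Real.exp (z (i - (l + 1 : ℕ))) := by
    have := mul_le_mul_of_nonneg_left e1 h0.le
    nlinarith
  have e4 := Real.log_le_log (by positivity) e3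
  rw [Real.log_mul p3.ne' (Real.exp_pos _).ne', Real.log_exp] at e4
  have : lse l b z i = Real.log (b (i - (l + 1 : ℕ)) * Real.exp (z (i - 1)) +
    Real.exp (z (i - (l + 1 : ℕ)))) := rfl
  linarith

section three

variable [NeZero k]

/-- The residue modulo three. -/
def cl3 (h3 : 3 ∣ k) : ZMod k →+* ZMod 3 := ZMod.castHom h3 (ZMod 3)

lemma cl3_q (h3 : 3 ∣ k) (hq : 3 ∣ l + 2) : cl3 h3 ((l + 2 : ℕ) : ZMod k) = 0 := by
  rw [map_natCast]
  exact (ZMod.natCast_eq_zero_iff _ _).mpr hq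

lemma cl3_L (h3 : 3 ∣ k) (hq : 3 ∣ l + 2) : cl3 h3 ((l + 1 : ℕ) : ZMod k) = -1 := by
  have h := cl3_q (l := l) h3 hq
  have : ((l + 2 : ℕ) : ZMod k) = ((l + 1 : ℕ) : ZMod k) + 1 := by push_cast; ring
  rw [this, map_add, map_one] at h
  exact eq_neg_of_add_eq_zero_left h

lemma sum_shift (h3 : 3 ∣ k) (f : ZMod k → ℝ) (a : ZMod k) (ρ : ZMod 3) :
    ∑ i with cl3 h3 i = ρ, f (i - a) = ∑ i with cl3 h3 i = ρ - cl3 h3 a, f i := by
  apply Finset.sum_nbij' (fun i => i - a) (fun i => i + a)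
  · intro i hi
    simp only [Finset.mem_filter, Finset.mem_univ, true_and] at hi ⊢
    rw [map_sub, hi]
  · intro i hi
    simp only [Finset.mem_filter, Finset.mem_univ, true_and] at hi ⊢
    rw [map_add, hi]; ring
  · intro i _; ring
  · intro i _; ring
  · intro i _; rfl

lemma fixed_iff (b z : ZMod k → ℝ) :
    Psi l b z = z ↔ ∀ i, z i = - lse l b z i := by
  constructor
  · intro h i
    exact (congrFun h i).symm
  · intro h
    funext i
    exact (h i).symm

/-- Necessity for `gcd (k, l + 2) = 3`, in logarithmic form. -/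
lemma neg_of_fixed (h3 : 3 ∣ k) (hq : 3 ∣ l + 2) (b z : ZMod k → ℝ) (hb : ∀ i, 0 < b i)
    (hz : Psi l b z = z) (ρ : ZMod 3) :
    ∑ i with cl3 h3 i = ρ, Real.log (gr l b i) < 0 := by
  rw [fixed_iff] at hz
  -- sum the strict inequality over the class `ρ - 2`
  have hne : (Finset.univ.filter (fun i : ZMod k => cl3 h3 i = ρ - 2)).Nonempty := by
    refine ⟨(((ρ - 2).val : ℕ) : ZMod k), ?_⟩
    simp
  have h1 : ∑ i with cl3 h3 i = ρ - 2, (z (i - (l + 2 : ℕ)) +
      Real.log (gr l b (i - ((l + 1 : ℕ) + (l + 1 : ℕ) : ZMod k)))) <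
      ∑ i with cl3 h3 i = ρ - 2, z i := by
    apply Finset.sum_lt_sum_of_nonempty hne
    intro i _
    have := exact_step (l := l) b z hb hz i
    rwa [sub_sub] at this
  rw [Finset.sum_add_distrib, sum_shift h3 z, sum_shift h3 (fun i => Real.log (gr l b i)),
    cl3_q h3 hq, sub_zero, map_add, cl3_L h3 hq] at h1
  have e : ρ - 2 - (-1 + -1) = ρ := by ring
  rw [e] at h1
  linarith

/-- Sufficiency for `gcd (k, l + 2) = 3`, in logarithmic form. -/
lemma fixed_of_neg (h3 : 3 ∣ k) (hq : 3 ∣ l + 2) (hg : Nat.gcd k (l + 2) = 3)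
    (b : ZMod k → ℝ) (hb : ∀ i, 0 < b i)
    (hneg : ∀ ρ : ZMod 3, ∑ i with cl3 h3 i = ρ, Real.log (gr l b i) < 0) :
    ∃ z, Psi l b z = z := by
  have hk : 0 < k := Nat.pos_of_ne_zero (NeZero.ne k)
  obtain ⟨K, hK0, hK⟩ := exists_K b
  set N := ‖Psi (l := l) b (0 : ZMod k → ℝ)‖ with hN
  have hN0 : 0 ≤ N := norm_nonneg _
  set C := 6 * (2 * N) + 6 * K + 6 with hC
  have hC0 : 0 ≤ C := by positivity
  -- choose `η`
  obtain ⟨η, hη, hηs⟩ : ∃ η : ℝ, 0 < η ∧ ∀ ρ : ZMod 3,
      ∑ i with cl3 h3 i = ρ, Real.log (gr l b i) + k * η < 0 := by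
    let S : ZMod 3 → ℝ := fun ρ => ∑ i with cl3 h3 i = ρ, Real.log (gr l b i)
    have hS : ∀ ρ, S ρ < 0 := hneg
    obtain ⟨ρ0, -, hρ0⟩ := Finset.exists_max_image Finset.univ S Finset.univ_nonempty
    refine ⟨- S ρ0 / (k + 1), ?_, ?_⟩
    · have := hS ρ0
      apply div_pos (by linarith) (by positivity)
    · intro ρ
      have h1 := hρ0 ρ (Finset.mem_univ _)
      have h2 : (k : ℝ) * (- S ρ0 / (k + 1)) < - S ρ0 := by
        rw [mul_div_assoc', div_lt_iff₀ (by positivity)]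
        have := hS ρ0
        nlinarith
      show S ρ + _ < 0
      linarith
  set T := k * C + 2 * K + 4 * N + |Real.log η| + 1 with hT
  have hlogη : - |Real.log η| ≤ Real.log η := neg_abs_le _
  have hlogη0 : 0 ≤ |Real.log η| := abs_nonneg _
  have hkC : 0 ≤ (k : ℝ) * C := by positivity
  have hT0 : 0 ≤ T := by positivity
  -- the maximum of a damped fixed point is bounded
  have hmax : ∀ c : ℝ, 1 / 2 < c → c < 1 → ∀ z : ZMod k → ℝ, z = c • Psi l b z →
      ∀ i, z i ≤ 2 * T := by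
    intro c hc hc1 z hz
    obtain ⟨h1, h1p, h1n⟩ := damped_near (l := l) b hb c hc hc1 z hz
    by_contra hcon
    push Not at hcon
    obtain ⟨i1, hi1⟩ := hcon
    obtain ⟨i0, -, hi0⟩ := Finset.exists_max_image Finset.univ z Finset.univ_nonempty
    have hM : 2 * T < z i0 := lt_of_lt_of_le hi1 (hi0 i1 (Finset.mem_univ _))
    set M := z i0 with hMdef
    -- class of `i0` is large
    have hP : ∀ i, cl3 h3 i = cl3 h3 i0 → M - k * C ≤ z i := by
      intro i hi
      have hd : 3 ∣ (i0 - i).val := by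
        have h5 : cl3 h3 (i0 - i) = 0 := by rw [map_sub, hi, sub_self]
        have h6 : cl3 h3 (((i0 - i).val : ℕ) : ZMod k) = 0 := by
          rw [ZMod.natCast_val, ZMod.cast_id', id_eq]; exact h5
        rw [map_natCast] at h6
        exact (ZMod.natCast_eq_zero_iff _ _).mp h6
      obtain ⟨j, hj, hj2⟩ := exists_mult k (l + 2) (i0 - i).val hk (by rw [hg]; exact hd)
      have h2 := key_iter (l := l) b z hb K (2 * N) hK (by positivity) h1 i0 j
      rw [hj2, ZMod.natCast_val, ZMod.cast_id', id_eq] at h2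
      have e : i0 - (i0 - i) = i := by ring
      rw [e] at h2
      have hjk : (j : ℝ) ≤ k := by exact_mod_cast hj.le
      have : (j : ℝ) * C ≤ k * C := mul_le_mul_of_nonneg_right hjk hC0
      linarith
    have hN1 : ∀ i, cl3 h3 i = cl3 h3 i0 + 1 → z i ≤ - M + k * C + K + 2 * N := by
      intro i hi
      have h2 := hP (i - 1) (by rw [map_sub, hi, map_one]; ring)
      have h3' := lse_ge1 (l := l) b z hb i
      have h4 := abs_le.mp (hK (i - (l + 1 : ℕ)))
      have h5 := abs_le.mp (h1 i)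
      linarith
    have hN2 : ∀ i, cl3 h3 i = cl3 h3 i0 + 2 → z i ≤ - M + k * C + K + 2 * N := by
      intro i hi
      have h2 := hP (i - (l + 1 : ℕ)) (by
        rw [map_sub, hi, cl3_L h3 hq]
        have : (2 : ZMod 3) - -1 = 0 := by decide
        linear_combination this)
      have h3' := lse_ge2 (l := l) b z hb i
      have h5 := abs_le.mp (h1 i)
      linarith
    have hstep : ∀ i, cl3 h3 i = cl3 h3 i0 →
        z i ≤ z (i - (l + 2 : ℕ)) + η +
          Real.log (gr l b (i - ((l + 1 : ℕ) + (l + 1 : ℕ) : ZMod k))) := by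
      intro i hi
      have three : (3 : ZMod 3) = 0 := by decide
      have c1 : cl3 h3 (i - 1) = cl3 h3 i0 + 2 := by
        rw [map_sub, hi, map_one]; linear_combination - three
      have c2 : cl3 h3 (i - (l + 1 : ℕ)) = cl3 h3 i0 + 1 := by
        rw [map_sub, hi, cl3_L h3 hq]; ring
      have c3 : cl3 h3 (i - 1 - 1) = cl3 h3 i0 + 1 := by
        rw [map_sub, c1, map_one]; ring
      have c4 : cl3 h3 (i - (l + 1 : ℕ) - (l + 1 : ℕ)) = cl3 h3 i0 + 2 := by
        rw [map_sub, c2, cl3_L h3 hq]; ring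
      have c5 : cl3 h3 (i - (l + 2 : ℕ)) = cl3 h3 i0 := by
        rw [map_sub, hi, cl3_q h3 hq]; ring
      have v0 := hP i hi
      have v1 := hN2 _ c1
      have v2 := hN1 _ c2
      have v3 := hN1 _ c3
      have v4 := hN2 _ c4
      have v5 := hP _ c5
      have hb5 := hb (i - (l + 2 : ℕ))
      have hb4 := hb (i - (l + 1 : ℕ) - (l + 1 : ℕ))
      have k5 := abs_le.mp (hK (i - (l + 2 : ℕ)))
      have k4 := abs_le.mp (hK (i - (l + 1 : ℕ) - (l + 1 : ℕ)))
      have := damped_step (l := l) b z hb η i (h1p i (by linarith)) (h1n _ (by linarith))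
        (h1n _ (by linarith))
        (by
          rw [← Real.exp_log hb5, ← Real.exp_log hη, ← Real.exp_add, ← Real.exp_add]
          apply Real.exp_le_exp.mpr
          linarith)
        (by
          rw [← Real.exp_log hb4, ← Real.exp_log hη, ← Real.exp_add, ← Real.exp_add]
          apply Real.exp_le_exp.mpr
          linarith)
      rwa [sub_sub i] at this
    -- sum over the class
    have hsum : ∑ i with cl3 h3 i = cl3 h3 i0, z i ≤
        ∑ i with cl3 h3 i = cl3 h3 i0, (z (i - (l + 2 : ℕ)) + η +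
          Real.log (gr l b (i - ((l + 1 : ℕ) + (l + 1 : ℕ) : ZMod k)))) := by
      apply Finset.sum_le_sum
      intro i hi
      exact hstep i (by simpa using hi)
    rw [Finset.sum_add_distrib, Finset.sum_add_distrib, sum_shift h3 z,
      sum_shift h3 (fun i => Real.log (gr l b i)), cl3_q h3 hq, sub_zero, Finset.sum_const,
      nsmul_eq_mul] at hsum
    have hcard : ((Finset.univ.filter (fun i : ZMod k => cl3 h3 i = cl3 h3 i0)).card : ℝ) ≤
        k := by
      have := Finset.card_le_univ (Finset.univ.filter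
        (fun i : ZMod k => cl3 h3 i = cl3 h3 i0))
      rw [ZMod.card] at this
      exact_mod_cast this
    have h7 := hηs (cl3 h3 i0 - cl3 h3 ((l + 1 : ℕ) + (l + 1 : ℕ) : ZMod k))
    nlinarith
  -- two-sided bound
  obtain ⟨z, hz⟩ := exists_fixed (l := l) b (fun i => (hb i).le)
    (2 * T + K + 2 * N + 1 + 2 * T) (1 / 2) (by norm_num) (by
    intro c _ hc1 hc2 z hz
    have hup := hmax c (by linarith) hc1 z hz
    obtain ⟨h1, -, -⟩ := damped_near (l := l) b hb c (by linarith) hc1 z hz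
    rw [pi_norm_le_iff_of_nonneg (by positivity)]
    intro i
    rw [Real.norm_eq_abs, abs_le]
    have h2 := abs_le.mp (h1 i)
    have h4 := abs_le.mp (hK (i - (l + 1 : ℕ)))
    constructor
    · have h3 := lse_le (l := l) b z hb i (2 * T + K)
        (by have := hup (i - 1); linarith) (by have := hup (i - (l + 1 : ℕ)); linarith)
      linarith
    · have := hup i
      linarith)
  exact ⟨z, hz⟩

/-- Conversion of class sums to products over `range k`. -/
lemma class_prod (h3 : 3 ∣ k) (hB : ∀ n, 0 < B n) (hper : ∀ n, B (n + k) = B n) (ρ : ZMod 3) :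
    ∑ i with cl3 h3 i = ρ, Real.log (gr l (cyc k B) i) =
      Real.log (∏ j ∈ (Finset.range k).filter (fun j => j % 3 = ρ.val),
        B j / (1 + B j * B (j + l + 1))) := by
  have hk : 0 < k := Nat.pos_of_ne_zero (NeZero.ne k)
  rw [Real.log_prod (fun j _ => by
    have := hB j; have := hB (j + l + 1); positivity)]
  apply Finset.sum_nbij' (fun i : ZMod k => (i.val : ℕ)) (fun j : ℕ => (j : ZMod k))
  · intro i hi
    simp only [Finset.mem_filter, Finset.mem_univ, true_and, Finset.mem_range] at hi ⊢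
    refine ⟨ZMod.val_lt i, ?_⟩
    have : cl3 h3 ((i.val : ℕ) : ZMod k) = ρ := by
      rw [ZMod.natCast_val, ZMod.cast_id', id_eq]; exact hi
    rw [map_natCast] at this
    rw [← this, ZMod.val_natCast]
  · intro j hj
    simp only [Finset.mem_filter, Finset.mem_univ, true_and, Finset.mem_range] at hj ⊢
    rw [map_natCast]
    apply ZMod.val_injective
    rw [ZMod.val_natCast, hj.2]
  · intro i _
    simp
  · intro j hj
    simp only [Finset.mem_filter, Finset.mem_range] at hj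
    exact ZMod.val_cast_of_lt hj.1
  · intro i _
    congr 1
    have e : i = ((i.val : ℕ) : ZMod k) := by simp
    have e2 : i + (l + 1 : ℕ) = ((i.val + l + 1 : ℕ) : ZMod k) := by
      push_cast; simp; ring
    unfold gr
    rw [e2, periodic_val hper]
    rfl

end three

/-- **gcd 3.** -/
theorem periodic_iff_of_gcd_three (hk : 0 < k) (hB : ∀ n, 0 < B n)
    (hper : ∀ n, B (n + k) = B n) (hg : Nat.gcd k (l + 2) = 3) :
    (∃ y, IsPosSol l B y ∧ ∀ j, y (j + k) = y j) ↔
      ∀ r < 3, ∏ j ∈ (Finset.range k).filter (fun j => j % 3 = r),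
        B j / (1 + B j * B (j + l + 1)) < 1 := by
  haveI : NeZero k := ⟨by omega⟩
  have h3 : 3 ∣ k := by rw [← hg]; exact Nat.gcd_dvd_left _ _
  have hq : 3 ∣ l + 2 := by rw [← hg]; exact Nat.gcd_dvd_right _ _
  have hb : ∀ i, 0 < cyc k B i := fun i => hB _
  have hpos : ∀ r, 0 < ∏ j ∈ (Finset.range k).filter (fun j => j % 3 = r),
      B j / (1 + B j * B (j + l + 1)) := by
    intro r
    apply Finset.prod_pos
    intro j _
    have := hB j; have := hB (j + l + 1); positivity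
  have hconv : (∀ r < 3, ∏ j ∈ (Finset.range k).filter (fun j => j % 3 = r),
      B j / (1 + B j * B (j + l + 1)) < 1) ↔
      ∀ ρ : ZMod 3, ∑ i with cl3 h3 i = ρ, Real.log (gr l (cyc k B) i) < 0 := by
    constructor
    · intro h ρ
      rw [class_prod h3 hB hper]
      exact Real.log_neg (hpos _) (h _ (ZMod.val_lt ρ))
    · intro h r hr
      have h1 := h (r : ZMod 3)
      rw [class_prod h3 hB hper, ZMod.val_cast_of_lt hr] at h1
      exact (Real.log_neg_iff (hpos r)).mp h1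
  rw [hconv]
  constructor
  · rintro ⟨y, hy, hyp⟩ ρ
    exact neg_of_fixed h3 hq _ _ hb
      (fixed_of_sol (fun n => (hB n).le) hper hy hyp) ρ
  · intro h
    obtain ⟨z, hz⟩ := fixed_of_neg h3 hq hg _ hb h
    exact sol_of_fixed (fun n => (hB n).le) hper z hz

end Pool.Agent.LibMP975ca8
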